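import Pool.Agent.helper3.T6R.Spec

set_option autoImplicit false

/-!
# T6R, RIN: the injection into the tuples
-/

namespace Pool.Agent.T6R

open Finset NumberField Pool.Agent.helper3.FT Pool.Agent.helper47.RA Pool.Agent.T5 Pool.Agent.T6
open scoped nonZeroDivisors

lemma RIN_int {z : ℤ} {b : ℝ} (h : |(z : ℝ)| ≤ b) : z ∈ Set.Icc (-⌊b⌋) ⌊b⌋ := by
  rw [abs_le] at h
  rw [Set.mem_Icc]
  constructor
  · have h1 : -z ≤ ⌊b⌋ := by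
      rw [Int.le_floor]
      push_cast
      linarith
    omega
  · rw [Int.le_floor]
    exact h.2

lemma RIN_bx (κ N Y Y₂ : ℝ) : {t : Tpl | Bx κ N Y Y₂ t}.Finite := by
  have h1 : ((Set.Iic ⌊2 * sN N Y Y₂⌋₊ ×ˢ Set.Iic ⌊2 * sK N Y Y₂⌋₊) ×ˢ
      (Set.Icc (-⌊2 * sM N Y Y₂⌋) ⌊2 * sM N Y Y₂⌋ ×ˢ
        (Set.Icc (-⌊2 * sG N Y Y₂⌋) ⌊2 * sG N Y Y₂⌋ ×ˢ Set.Icc (-⌊Y⌋) ⌊Y⌋)) : Set Tpl).Finite :=
    ((Set.finite_Iic _).prod (Set.finite_Iic _)).prod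
      ((Set.finite_Icc _ _).prod ((Set.finite_Icc _ _).prod (Set.finite_Icc _ _)))
  refine h1.subset ?_
  intro t ht
  refine Set.mk_mem_prod (Set.mk_mem_prod ?_ ?_) (Set.mk_mem_prod ?_ (Set.mk_mem_prod ?_ ?_))
  · exact Nat.le_floor ht.n2
  · exact Nat.le_floor ht.k2
  · exact RIN_int ht.m2
  · exact RIN_int ht.g2
  · exact RIN_int ht.z2

lemma RIN_fin (κ N Y Y₂ H : ℝ) :
    {x : ℕ × Tpl | (x.1 : ℝ) ≤ H ∧ Bx κ (N * (x.1 : ℝ) ^ 2) Y Y₂ x.2}.Finite := by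
  have h1 : (⋃ d ∈ Set.Iic ⌊H⌋₊, (fun t : Tpl => (d, t)) '' {t : Tpl | Bx κ (N * (d : ℝ) ^ 2) Y Y₂ t}).Finite :=
    Set.Finite.biUnion (Set.finite_Iic _) (fun d _ => (RIN_bx κ (N * (d : ℝ) ^ 2) Y Y₂).image _)
  refine h1.subset ?_
  rintro ⟨d, t⟩ ⟨h2, h3⟩
  exact Set.mem_biUnion (Set.mem_Iic.2 (Nat.le_floor h2)) ⟨t, h3, rfl⟩

lemma RIN_ex {K : Type} [Field K] [NumberField K] (Q : QF K) (κ N Y Y₂ H : ℝ) (hRDI : RDI_stmt) :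
    ∃ g : Ideal (𝓞 K) × 𝓞 K → ℕ × Tpl, Set.InjOn g (GSR Q κ N Y Y₂ H) ∧ ∀ x ∈ GSR Q κ N Y Y₂ H,
      1 ≤ (g x).1 ∧ ((g x).1 : ℝ) ≤ H ∧ Bx κ (N * ((g x).1 : ℝ) ^ 2) Y Y₂ (g x).2 ∧
      dis (g x).2 = Q.D * ((g x).1 : ℤ) ^ 2 := by
  classical
  have hex : ∀ x : Ideal (𝓞 K) × 𝓞 K, ∃ q : ℕ × Tpl, x ∈ GSR Q κ N Y Y₂ H → ∃ γ : 𝓞 K,
      DatR Q x.1 x.2 γ q.1 q.2 ∧ (q.1 : ℝ) ≤ H ∧ Bx κ (N * (q.1 : ℝ) ^ 2) Y Y₂ q.2 := by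
    intro x
    by_cases hx : x ∈ GSR Q κ N Y Y₂ H
    · obtain ⟨γ, d, t, h1, h2, h3⟩ := hx
      exact ⟨(d, t), fun _ => ⟨γ, h1, h2, h3⟩⟩
    · exact ⟨(0, ((0, 0), (0, 0, 0))), fun h => absurd h hx⟩
  choose g hg using hex
  refine ⟨g, ?_, ?_⟩
  · intro x hx y hy hxy
    obtain ⟨γ, h1, -, -⟩ := hg x hx
    obtain ⟨γ', h2, -, -⟩ := hg y hy
    rw [hxy] at h1
    obtain ⟨-, h3, h4⟩ := hRDI K Q x.1 y.1 x.2 γ y.2 γ' _ _ _ h1 h2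
    exact Prod.ext h3 h4
  · intro x hx
    obtain ⟨γ, h1, h2, h3⟩ := hg x hx
    exact ⟨h1.d1, h2, h3, h1.D⟩

lemma RIN_one (hRDI : RDI_stmt) (κ N Y Y₂ H : ℝ) (D : ℤ) :
    ∃ FD : Finset (ℕ × Tpl), (FD.card : ℝ) = SF (fun _ E => ((GSR E.Q κ N Y Y₂ H).ncard : ℝ)) D ∧
      ∀ x ∈ FD, 1 ≤ x.1 ∧ (x.1 : ℝ) ≤ H ∧ Bx κ (N * (x.1 : ℝ) ^ 2) Y Y₂ x.2 ∧ dis x.2 = D * (x.1 : ℤ) ^ 2 := by
  classical
  by_cases h : Nonempty (Fld D)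
  · have hSF : SF (fun _ E => ((GSR E.Q κ N Y Y₂ H).ncard : ℝ)) D =
        ((GSR h.some.Q κ N Y Y₂ H).ncard : ℝ) := by
      unfold SF
      rw [dif_pos h]
    obtain ⟨E, hE⟩ : ∃ E : Fld D, E = h.some := ⟨_, rfl⟩
    rw [hSF, ← hE]
    obtain ⟨g, hg1, hg2⟩ := RIN_ex E.Q κ N Y Y₂ H hRDI
    have hfin : (GSR E.Q κ N Y Y₂ H).Finite :=
      Set.Finite.of_injOn (f := g) (t := {x : ℕ × Tpl | (x.1 : ℝ) ≤ H ∧ Bx κ (N * (x.1 : ℝ) ^ 2) Y Y₂ x.2})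
        (fun x hx => ⟨(hg2 x hx).2.1, (hg2 x hx).2.2.1⟩) hg1 (RIN_fin κ N Y Y₂ H)
    refine ⟨hfin.toFinset.image g, ?_, ?_⟩
    · rw [card_image_of_injOn, Set.ncard_eq_toFinset_card _ hfin]
      intro x hx y hy hxy
      rw [Set.Finite.coe_toFinset] at hx hy
      exact hg1 hx hy hxy
    · intro y hy
      obtain ⟨x, hx, rfl⟩ := mem_image.1 hy
      rw [Set.Finite.mem_toFinset] at hx
      obtain ⟨h1, h2, h3, h4⟩ := hg2 x hx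
      rw [E.hD] at h4
      exact ⟨h1, h2, h3, h4⟩
  · refine ⟨∅, ?_, by simp⟩
    unfold SF
    rw [dif_neg h]
    simp

theorem RIN (hRDI : RDI_stmt) : RIN_stmt := by
  classical
  constructor
  · intro K _ _ Q κ N Y Y₂ H
    obtain ⟨g, hg1, hg2⟩ := RIN_ex Q κ N Y Y₂ H hRDI
    exact Set.Finite.of_injOn (f := g) (t := {x : ℕ × Tpl | (x.1 : ℝ) ≤ H ∧ Bx κ (N * (x.1 : ℝ) ^ 2) Y Y₂ x.2})
      (fun x hx => ⟨(hg2 x hx).2.1, (hg2 x hx).2.2.1⟩) hg1 (RIN_fin κ N Y Y₂ H)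
  · intro κ N Y Y₂ H
    have hex := RIN_one hRDI κ N Y Y₂ H
    choose FD hFD1 hFD2 using hex
    have hdisj : ∀ D ∈ DNR N, ∀ D' ∈ DNR N, D ≠ D' → Disjoint (FD D) (FD D') := by
      intro D _ D' _ hne
      rw [Finset.disjoint_left]
      intro x hx hx'
      have h1 := (hFD2 D x hx).2.2.2
      have h2 := (hFD2 D' x hx').2.2.2
      rw [h1] at h2
      have h4 : 1 ≤ x.1 := (hFD2 D x hx).1
      have h3 : (x.1 : ℤ) ^ 2 ≠ 0 := pow_ne_zero 2 (by exact_mod_cast (by omega : x.1 ≠ 0))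
      exact hne (mul_right_cancel₀ h3 h2)
    refine ⟨(DNR N).biUnion FD, ?_, ?_⟩
    · intro x hx
      obtain ⟨D, hD, hxD⟩ := mem_biUnion.1 hx
      obtain ⟨h1, h2, h3, h4⟩ := hFD2 D x hxD
      refine ⟨h1, h2, h3, ?_⟩
      rw [h4]
      exact dvd_mul_left _ _
    · rw [card_biUnion hdisj, Nat.cast_sum]
      exact (Finset.sum_congr rfl fun D _ => hFD1 D).symm.le

end Pool.Agent.T6R
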